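import Pool.Agent.Lib_helper4.PluriG.App
import Pool.Agent.Lib_helper4.Pluri.Fin

/-! # Functions which are pluriharmonic in each of several groups: the influences -/

set_option autoImplicit false

namespace Pool.Agent.Lib_helper4.PluriG

open Finset Pool.Agent.Lib_helper30.AA Pool.Agent.Lib_helper14.AAQ Pool.Agent.Lib_helper4.Pluri

variable {n m : ℕ}

/-- The complex function with the coefficients `c`, as a function of `n` pairs of bits. -/
noncomputable def Hw (g : Fin n → Fin m) (c : (Fin m → Bool) → Finset (Fin n) → ℂ)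
    (w : Fin n → Bool × Bool) : ℂ :=
  ∑ u : Fin m → Bool, ∑ S : Finset (Fin n), c u S * ∏ i ∈ S, ((-1) ^ (w i).1.toNat +
    (-1) ^ (u (g i)).toNat * (-1) ^ (w i).2.toNat * Complex.I)

/-- The inequality for one function, with the groups of pairs given by `g`. -/
def S4G : Prop :=
  ∀ (n m : ℕ) (g : Fin n → Fin m) (k : ℕ) (i0 : Fin m) (c : (Fin m → Bool) → Finset (Fin n) → ℂ),
    (∀ u S, c u S ≠ 0 → i0 ∈ S.image g → u i0 = false) →
    (∀ u S, c u S ≠ 0 → ((S.image g).erase i0).card ≤ k) →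
    (∀ w, ‖Hw g c w‖ ≤ 1) →
    ((Fintype.card (Fin n → Bool × Bool) : ℝ)⁻¹ * ∑ w, ‖Hw g c w‖ ^ 2) ^ (19/20 : ℝ) ≤
      2 ^ (20 * k) * ((Fintype.card (Fin n → Bool × Bool) : ℝ)⁻¹ * ∑ w, ‖Hw g c w‖)

/-- The pairs of bits. -/
def prs (n : ℕ) : (Fin n → Bool × Bool) ≃ (Fin n ⊕ Fin n → Bool) where
  toFun w := Sum.elim (fun i => (w i).1) (fun i => (w i).2)
  invFun v i := (v (Sum.inl i), v (Sum.inr i))
  left_inv w := rfl
  right_inv v := by
    ext k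
    rcases k with k | k <;> rfl

lemma Hw_eq (g : Fin n → Fin m) (c : (Fin m → Bool) → Finset (Fin n) → ℂ)
    (w : Fin n → Bool × Bool) : Hw g c w = HH g c (prs n w) := by
  unfold Hw HH
  refine Finset.sum_congr rfl fun u _ => Finset.sum_congr rfl fun S _ => ?_
  congr 1
  refine Finset.prod_congr rfl fun i _ => ?_
  unfold pt e prs
  push_cast
  rfl

lemma card_w : (Fintype.card (Fin n → Bool × Bool) : ℝ)⁻¹ = ((2 : ℝ) ^ (2 * n))⁻¹ := by
  congr 1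
  simp only [Fintype.card_fun, Fintype.card_prod, Fintype.card_bool, Fintype.card_fin]
  push_cast
  rw [pow_mul]
  norm_num

/-- The sum of the influences of `x_j` and `y_j`. -/
noncomputable def th (g : Fin n → Fin m) (c : (Fin m → Bool) → Finset (Fin n) → ℂ) (j : Fin n) : ℝ :=
  ((2 : ℝ) ^ (2 * n))⁻¹ * ∑ v, ‖HH g (dj g c j) v‖ ^ 2

lemma th_nonneg (g : Fin n → Fin m) (c : (Fin m → Bool) → Finset (Fin n) → ℂ) (j : Fin n) :
    0 ≤ th g c j := by
  unfold th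
  positivity

lemma hd_sum (g : Fin n → Fin m) (c : (Fin m → Bool) → Finset (Fin n) → ℂ) (j : Fin n) :
    ((2 : ℝ) ^ (2 * n))⁻¹ * ∑ v, hd (F g c) (Sum.inl j) v ^ 2 +
      ((2 : ℝ) ^ (2 * n))⁻¹ * ∑ v, hd (F g c) (Sum.inr j) v ^ 2 = th g c j := by
  rw [← mul_add, ← Finset.sum_add_distrib]
  simp_rw [hd_sq]
  rfl

lemma th_le (hs : S4G) {g : Fin n → Fin m} {c : (Fin m → Bool) → Finset (Fin n) → ℂ} {k : ℕ}
    {J : Finset (Fin n)} (hk : ∀ u S, c u S ≠ 0 → (S ∩ J).Nonempty → (S.image g).card ≤ k + 1)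
    (hf : ∀ v, |F g c v| ≤ 1) {j : Fin n} (hj : j ∈ J) :
    th g c j ^ (19/20 : ℝ) ≤
      2 ^ (20 * k) * (((2 : ℝ) ^ (2 * n))⁻¹ * ∑ v, ‖HH g (dj g c j) v‖) := by
  have h := hs n m g k (g j) (dj g c j) ?_ ?_ ?_
  · rw [card_w] at h
    have e1 : ∑ w, ‖Hw g (dj g c j) w‖ ^ 2 = ∑ v, ‖HH g (dj g c j) v‖ ^ 2 :=
      Fintype.sum_equiv (prs n) _ _ fun w => by rw [Hw_eq]
    have e2 : ∑ w, ‖Hw g (dj g c j) w‖ = ∑ v, ‖HH g (dj g c j) v‖ :=
      Fintype.sum_equiv (prs n) _ _ fun w => by rw [Hw_eq]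
    rw [e1, e2] at h
    exact h
  · intro u S hS _
    by_contra h
    rw [Bool.not_eq_false] at h
    simp [dj, h] at hS
  · intro u S hS
    have h1 : j ∉ S := fun h => by simp [dj, h] at hS
    have h2 : ((insert j S).image g).card ≤ k + 1 := by
      have h3 : ((insert j S) ∩ J).Nonempty :=
        ⟨j, Finset.mem_inter.mpr ⟨Finset.mem_insert_self _ _, hj⟩⟩
      by_cases h4 : c u (insert j S) = 0
      · by_cases h5 : c (fun a => !u a) (insert j S) = 0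
        · simp [dj, h4, h5] at hS
        · exact hk _ _ h5 h3
      · exact hk _ _ h4 h3
    have h6 : (S.image g).erase (g j) = ((insert j S).image g).erase (g j) := by
      rw [Finset.image_insert, Finset.erase_insert_eq_erase]
    rw [h6, Finset.card_erase_of_mem (Finset.mem_image_of_mem g (Finset.mem_insert_self _ _))]
    omega
  · intro w
    rw [Hw_eq]
    exact norm_le_one hf j _

/-- **The power sum of the influences.** -/
theorem sum_th (hs : S4G) {g : Fin n → Fin m} {c : (Fin m → Bool) → Finset (Fin n) → ℂ} {k : ℕ}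
    {J : Finset (Fin n)} {d : ℕ} (hdeg : ∀ u S, c u S ≠ 0 → (S ∩ J).card ≤ d)
    (hk : ∀ u S, c u S ≠ 0 → (S ∩ J).Nonempty → (S.image g).card ≤ k + 1)
    (hf : ∀ v, |F g c v| ≤ 1) :
    ∑ j ∈ J, th g c j ^ (19/20 : ℝ) ≤ 2 * 2 ^ (20 * k) * (d : ℝ) ^ 2 := by
  have h1 : ∑ j ∈ J, th g c j ^ (19/20 : ℝ) ≤
      2 ^ (20 * k) * (((2 : ℝ) ^ (2 * n))⁻¹ * ∑ v, ∑ j ∈ J, ‖HH g (dj g c j) v‖) := by
    refine (Finset.sum_le_sum fun j hj => th_le hs hk hf hj).trans (le_of_eq ?_)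
    rw [← Finset.mul_sum, ← Finset.mul_sum, Finset.sum_comm]
  refine h1.trans ?_
  have h2 : ∀ v : Fin n ⊕ Fin n → Bool, ∑ j ∈ J, ‖HH g (dj g c j) v‖ ≤ 2 * (d : ℝ) ^ 2 := by
    intro v
    have h3 := sum_abs_hd_le hf (K := J.disjSum J) (d := d)
      (fun W hW => card_le_of_coef_F hdeg hW) v
    rw [Finset.sum_disjSum, ← Finset.sum_add_distrib] at h3
    refine le_trans (Finset.sum_le_sum fun j _ => ?_) h3
    exact norm_le_hd g c j _
  have h4 : ((2 : ℝ) ^ (2 * n))⁻¹ * ∑ v : Fin n ⊕ Fin n → Bool, ∑ j ∈ J, ‖HH g (dj g c j) v‖ ≤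
      2 * (d : ℝ) ^ 2 := by
    have h5 : ∑ v : Fin n ⊕ Fin n → Bool, ∑ j ∈ J, ‖HH g (dj g c j) v‖ ≤
        2 ^ (2 * n) * (2 * (d : ℝ) ^ 2) := by
      refine (Finset.sum_le_sum fun v _ => h2 v).trans (le_of_eq ?_)
      rw [Finset.sum_const, Finset.card_univ, nsmul_eq_mul]
      congr 1
      simp only [Fintype.card_fun, Fintype.card_bool, Fintype.card_sum, Fintype.card_fin]
      push_cast
      rw [two_mul]
    rw [inv_mul_le_iff₀ (by positivity)]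
    exact h5
  calc 2 ^ (20 * k) * (((2 : ℝ) ^ (2 * n))⁻¹ * ∑ v, ∑ j ∈ J, ‖HH g (dj g c j) v‖)
      ≤ 2 ^ (20 * k) * (2 * (d : ℝ) ^ 2) := mul_le_mul_of_nonneg_left h4 (by positivity)
    _ = 2 * 2 ^ (20 * k) * (d : ℝ) ^ 2 := by ring

/-- From the power sum to the maximum. -/
theorem max_of_sum {J : Finset (Fin n)} (hJ : J.Nonempty) (t : Fin n → ℝ) (ht : ∀ j, 0 ≤ t j)
    {B : ℝ} (hB : 0 ≤ B) (h1 : ∑ j ∈ J, t j ^ (19/20 : ℝ) ≤ B) {V : ℝ} (hV : 0 ≤ V)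
    (hVle : V ≤ ∑ j ∈ J, t j) : ∃ j ∈ J, (V / B) ^ 20 ≤ t j := by
  obtain ⟨j, hj, hmax⟩ := J.exists_max_image t hJ
  refine ⟨j, hj, ?_⟩
  have h2 : V ≤ t j ^ (1/20 : ℝ) * B := by
    refine hVle.trans ?_
    calc ∑ i ∈ J, t i ≤ ∑ i ∈ J, t j ^ (1/20 : ℝ) * t i ^ (19/20 : ℝ) := by
          refine Finset.sum_le_sum fun i hi => ?_
          have h3 : t i = t i ^ (1/20 : ℝ) * t i ^ (19/20 : ℝ) := by
            rw [← Real.rpow_add_of_nonneg (ht i) (by norm_num) (by norm_num)]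
            norm_num
          conv_lhs => rw [h3]
          exact mul_le_mul_of_nonneg_right
            (Real.rpow_le_rpow (ht i) (hmax i hi) (by norm_num))
            (Real.rpow_nonneg (ht i) _)
      _ = t j ^ (1/20 : ℝ) * ∑ i ∈ J, t i ^ (19/20 : ℝ) := by rw [Finset.mul_sum]
      _ ≤ t j ^ (1/20 : ℝ) * B :=
          mul_le_mul_of_nonneg_left h1 (Real.rpow_nonneg (ht j) _)
  rcases hB.eq_or_lt with hB | hB
  · rw [← hB, div_zero, zero_pow (by norm_num)]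
    exact ht j
  · have h3 : V / B ≤ t j ^ (1/20 : ℝ) := by
      rw [div_le_iff₀ hB]
      exact h2
    calc (V / B) ^ 20 ≤ (t j ^ (1/20 : ℝ)) ^ 20 :=
          pow_le_pow_left₀ (div_nonneg hV hB.le) h3 20
      _ = t j := by
          rw [← Real.rpow_natCast, ← Real.rpow_mul (ht j)]
          norm_num

/-- **The final form, from the inequality for one function.** -/
theorem fin (hs : S4G) (n m : ℕ) (g : Fin n → Fin m) (k : ℕ)
    (c : (Fin m → Bool) → Finset (Fin n) → ℂ) (f : (Fin n ⊕ Fin n → Bool) → ℝ)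
    (hf : ∀ v, f v = (∑ u, ∑ S, c u S * ∏ i ∈ S, ((-1) ^ (v (Sum.inl i)).toNat +
      (-1) ^ (u (g i)).toNat * (-1) ^ (v (Sum.inr i)).toNat * Complex.I)).re)
    (hbd : ∀ v, |f v| ≤ 1) (J : Finset (Fin n)) (hJ : J.Nonempty) (d : ℕ)
    (hdeg : ∀ u S, c u S ≠ 0 → (S ∩ J).card ≤ d)
    (hk : ∀ u S, c u S ≠ 0 → (S ∩ J).Nonempty → (S.image g).card ≤ k + 1)
    (Inf : Fin n ⊕ Fin n → ℝ)
    (hInf : ∀ k, Inf k = ((2 : ℝ) ^ (2 * n))⁻¹ * ∑ v, ((f v - f (Function.update v k (!v k))) / 2) ^ 2)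
    (V : ℝ) (hV : V = ∑ W with (W ∩ J.disjSum J).Nonempty,
      (((2 : ℝ) ^ (2 * n))⁻¹ * ∑ v, f v * ∏ k ∈ W, (-1 : ℝ) ^ (v k).toNat) ^ 2) :
    ∑ j ∈ J, (Inf (Sum.inl j) + Inf (Sum.inr j)) ^ (19/20 : ℝ) ≤ 2 * 2 ^ (20 * k) * (d : ℝ) ^ 2 ∧
    (∃ j ∈ J, (V / (2 * 2 ^ (20 * k) * (d : ℝ) ^ 2)) ^ 20 ≤ Inf (Sum.inl j) + Inf (Sum.inr j)) ∧
    (J = univ → V = ((2 : ℝ) ^ (2 * n))⁻¹ * ∑ v, f v ^ 2 -
      (((2 : ℝ) ^ (2 * n))⁻¹ * ∑ v, f v) ^ 2) := by
  have hF : f = F g c := by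
    funext v
    rw [hf]
    unfold F HH
    congr 1
    refine Finset.sum_congr rfl fun u _ => Finset.sum_congr rfl fun S _ => ?_
    congr 1
    refine Finset.prod_congr rfl fun i _ => ?_
    unfold pt e
    push_cast
    rfl
  subst hF
  have hth : ∀ j, Inf (Sum.inl j) + Inf (Sum.inr j) = th g c j := fun j => by
    rw [← hd_sum, hInf, hInf]
    rfl
  have hcoef : ∀ W : Finset (Fin n ⊕ Fin n), ((2 : ℝ) ^ (2 * n))⁻¹ *
      ∑ v, F g c v * ∏ k ∈ W, (-1 : ℝ) ^ (v k).toNat = coef (F g c) W := fun W => by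
    unfold coef chi
    rw [two_pow_card]
  have hVc : V = ∑ W with (W ∩ J.disjSum J).Nonempty, coef (F g c) W ^ 2 := by
    rw [hV]
    exact Finset.sum_congr rfl fun W _ => by rw [hcoef]
  have hInf' : ∀ k, Inf k =
      ∑ W ∈ (univ : Finset (Finset (Fin n ⊕ Fin n))).filter (fun W => k ∈ W),
        coef (F g c) W ^ 2 := by
    intro k
    rw [hInf, ← influence_eq, two_pow_card]
  have hVle : V ≤ ∑ j ∈ J, th g c j := by
    rw [hVc]
    refine (weight_le_inf (F g c) (J.disjSum J)).trans (le_of_eq ?_)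
    simp_rw [← hInf']
    rw [Finset.sum_disjSum, ← Finset.sum_add_distrib]
    exact Finset.sum_congr rfl fun j _ => hth j
  have hV0 : 0 ≤ V := by
    rw [hVc]
    exact Finset.sum_nonneg fun W _ => by positivity
  have h1 := sum_th hs hdeg hk hbd
  refine ⟨?_, ?_, ?_⟩
  · simp_rw [hth]
    exact h1
  · simp_rw [hth]
    exact max_of_sum hJ (th g c) (th_nonneg g c) (by positivity) h1 hV0 hVle
  · intro hJu
    rw [hVc, hJu, ← two_pow_card, variance_eq]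
    refine Finset.sum_congr ?_ fun W _ => rfl
    ext W
    have : (univ : Finset (Fin n)).disjSum (univ : Finset (Fin n)) = univ := by
      ext k
      rcases k with k | k <;> simp
    simp [this]

end Pool.Agent.Lib_helper4.PluriG
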