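import Pool.Agent.Lib_helper4.Pluri.App
import Pool.Agent.Lib_helper30.AA.Degree

/-! # Functions on the cube which are pluriharmonic in each of several groups of pairs of variables -/

set_option autoImplicit false

namespace Pool.Agent.Lib_helper4.PluriG

open Finset Pool.Agent.Lib_helper30.AA Pool.Agent.Lib_helper14.AAQ Pool.Agent.Lib_helper4.Pluri

variable {n m : ℕ}

/-- The complex number `x_i + s_i i y_i`. -/
noncomputable def pt (s : Fin n → Bool) (v : Fin n ⊕ Fin n → Bool) (i : Fin n) : ℂ :=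
  (e (v (Sum.inl i)) : ℂ) + (e (s i) : ℂ) * (e (v (Sum.inr i)) : ℂ) * Complex.I

/-- The complex function with the coefficients `c`. -/
noncomputable def HH (g : Fin n → Fin m) (c : (Fin m → Bool) → Finset (Fin n) → ℂ)
    (v : Fin n ⊕ Fin n → Bool) : ℂ :=
  ∑ u : Fin m → Bool, ∑ S : Finset (Fin n), c u S * ∏ i ∈ S, pt (fun i => u (g i)) v i

/-- The real part. -/
noncomputable def F (g : Fin n → Fin m) (c : (Fin m → Bool) → Finset (Fin n) → ℂ)
    (v : Fin n ⊕ Fin n → Bool) : ℝ := (HH g c v).re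

lemma prod_pt (s : Fin n → Bool) (v : Fin n ⊕ Fin n → Bool) (S : Finset (Fin n)) :
    ∏ i ∈ S, pt s v i = ∑ t ∈ S.powerset,
      (chi (t.disjSum (S \ t)) v : ℂ) * ((∏ i ∈ S \ t, (e (s i) : ℂ)) * Complex.I ^ (S \ t).card) := by
  unfold pt
  rw [Finset.prod_add]
  refine Finset.sum_congr rfl fun t _ => ?_
  rw [Finset.prod_mul_distrib, Finset.prod_mul_distrib, Finset.prod_const, chi_eq,
    Finset.prod_disjSum]
  push_cast
  ring

lemma F_eq (g : Fin n → Fin m) (c : (Fin m → Bool) → Finset (Fin n) → ℂ)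
    (v : Fin n ⊕ Fin n → Bool) :
    F g c v = ∑ u : Fin m → Bool, ∑ S : Finset (Fin n), ∑ t ∈ S.powerset,
      (c u S * ((∏ i ∈ S \ t, (e (u (g i)) : ℂ)) * Complex.I ^ (S \ t).card)).re *
        chi (t.disjSum (S \ t)) v := by
  unfold F HH
  rw [Complex.re_sum]
  refine Finset.sum_congr rfl fun u _ => ?_
  rw [Complex.re_sum]
  refine Finset.sum_congr rfl fun S _ => ?_
  rw [prod_pt, Finset.mul_sum, Complex.re_sum]
  refine Finset.sum_congr rfl fun t _ => ?_
  have : c u S * ((chi (t.disjSum (S \ t)) v : ℂ) * ((∏ i ∈ S \ t, (e (u (g i)) : ℂ)) *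
      Complex.I ^ (S \ t).card)) = ((chi (t.disjSum (S \ t)) v : ℝ) : ℂ) *
        (c u S * ((∏ i ∈ S \ t, (e (u (g i)) : ℂ)) * Complex.I ^ (S \ t).card)) := by ring
  rw [this, Complex.re_ofReal_mul]
  ring

lemma coef_F (g : Fin n → Fin m) (c : (Fin m → Bool) → Finset (Fin n) → ℂ)
    (W : Finset (Fin n ⊕ Fin n)) :
    coef (F g c) W = ∑ u : Fin m → Bool, ∑ S : Finset (Fin n), ∑ t ∈ S.powerset,
      (c u S * ((∏ i ∈ S \ t, (e (u (g i)) : ℂ)) * Complex.I ^ (S \ t).card)).re *
        (if t.disjSum (S \ t) = W then 1 else 0) := by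
  have h : F g c = fun v => ∑ u : Fin m → Bool, ∑ S : Finset (Fin n), ∑ t ∈ S.powerset,
      (c u S * ((∏ i ∈ S \ t, (e (u (g i)) : ℂ)) * Complex.I ^ (S \ t).card)).re *
        chi (t.disjSum (S \ t)) v := funext (F_eq g c)
  rw [h, coef_sum]
  refine Finset.sum_congr rfl fun u _ => ?_
  rw [coef_sum]
  refine Finset.sum_congr rfl fun S _ => ?_
  rw [coef_sum]
  refine Finset.sum_congr rfl fun t _ => ?_
  rw [coef_const_mul]
  congr 1
  exact coef_chi _ _

/-- The degree in the variables of `J`. -/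
lemma card_le_of_coef_F {g : Fin n → Fin m} {c : (Fin m → Bool) → Finset (Fin n) → ℂ}
    {J : Finset (Fin n)} {d : ℕ}
    (hdeg : ∀ u S, c u S ≠ 0 → (S ∩ J).card ≤ d) {W : Finset (Fin n ⊕ Fin n)}
    (hW : coef (F g c) W ≠ 0) : (W ∩ J.disjSum J).card ≤ d := by
  rw [coef_F] at hW
  obtain ⟨u, -, hS⟩ := Finset.exists_ne_zero_of_sum_ne_zero hW
  obtain ⟨S, -, hS⟩ := Finset.exists_ne_zero_of_sum_ne_zero hS
  obtain ⟨t, ht, hS⟩ := Finset.exists_ne_zero_of_sum_ne_zero hS
  have hc : c u S ≠ 0 := by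
    rintro h
    simp [h] at hS
  have ht' : t.disjSum (S \ t) = W := by
    by_contra h
    simp [h] at hS
  have hd := hdeg u S hc
  have e1 : W ∩ J.disjSum J = (t ∩ J).disjSum ((S \ t) ∩ J) := by
    rw [← ht']
    ext k
    rcases k with k | k <;> simp
  rw [e1, Finset.card_disjSum]
  have e2 : S ∩ J = (t ∩ J) ∪ ((S \ t) ∩ J) := by
    rw [← Finset.union_inter_distrib_right, Finset.union_sdiff_of_subset (Finset.mem_powerset.mp ht)]
  have e3 : Disjoint (t ∩ J) ((S \ t) ∩ J) :=
    Finset.disjoint_of_subset_left Finset.inter_subset_left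
      (Finset.disjoint_of_subset_right Finset.inter_subset_left Finset.disjoint_sdiff)
  rw [e2, Finset.card_union_of_disjoint e3] at hd
  exact hd

/-! ### The derivatives -/

/-- The coefficients of `D_(x_j) F - i D_(y_j) F`. -/
noncomputable def dj (g : Fin n → Fin m) (c : (Fin m → Bool) → Finset (Fin n) → ℂ) (j : Fin n)
    (u : Fin m → Bool) (T : Finset (Fin n)) : ℂ :=
  if j ∈ T ∨ u (g j) = true then 0
  else c u (insert j T) + starRingEnd ℂ (c (fun a => !u a) (insert j T))

/-- The part without the variable `j`. -/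
noncomputable def G0 (g : Fin n → Fin m) (c : (Fin m → Bool) → Finset (Fin n) → ℂ) (j : Fin n)
    (v : Fin n ⊕ Fin n → Bool) : ℂ :=
  ∑ u : Fin m → Bool, ∑ T ∈ (univ.erase j).powerset, c u T * ∏ i ∈ T, pt (fun i => u (g i)) v i

/-- The factor of the variable `j` in the part with the sign pattern `u`. -/
noncomputable def A (g : Fin n → Fin m) (c : (Fin m → Bool) → Finset (Fin n) → ℂ) (j : Fin n)
    (u : Fin m → Bool) (v : Fin n ⊕ Fin n → Bool) : ℂ :=
  ∑ T ∈ (univ.erase j).powerset, c u (insert j T) * ∏ i ∈ T, pt (fun i => u (g i)) v i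

lemma notMem_of {j : Fin n} {T : Finset (Fin n)} (hT : T ∈ (univ.erase j).powerset) : j ∉ T :=
  fun h => by
    have := Finset.mem_powerset.mp hT h
    simp at this

lemma sum_split (j : Fin n) (h : Finset (Fin n) → ℂ) :
    ∑ S, h S = ∑ T ∈ (univ.erase j).powerset, h T +
      ∑ T ∈ (univ.erase j).powerset, h (insert j T) := by
  rw [← Finset.sum_powerset_insert (by simp), Finset.insert_erase (mem_univ j), Finset.powerset_univ]

lemma HH_split (g : Fin n → Fin m) (c : (Fin m → Bool) → Finset (Fin n) → ℂ) (j : Fin n)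
    (v : Fin n ⊕ Fin n → Bool) :
    HH g c v = G0 g c j v + ∑ u : Fin m → Bool, pt (fun i => u (g i)) v j * A g c j u v := by
  unfold HH G0 A
  rw [← Finset.sum_add_distrib]
  refine Finset.sum_congr rfl fun u _ => ?_
  rw [sum_split j, Finset.mul_sum]
  congr 1
  refine Finset.sum_congr rfl fun T hT => ?_
  rw [Finset.prod_insert (notMem_of hT)]
  ring

/-- Complementing the signs conjugates. -/
lemma conj_pt (s : Fin n → Bool) (v : Fin n ⊕ Fin n → Bool) (i : Fin n) :
    starRingEnd ℂ (pt s v i) = pt (fun i => !s i) v i := by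
  unfold pt
  rw [map_add, map_mul, map_mul, Complex.conj_I, Complex.conj_ofReal, Complex.conj_ofReal,
    Complex.conj_ofReal, e_not]
  push_cast
  ring

lemma conj_A (g : Fin n → Fin m) (c : (Fin m → Bool) → Finset (Fin n) → ℂ) (j : Fin n)
    (u : Fin m → Bool) (v : Fin n ⊕ Fin n → Bool) :
    starRingEnd ℂ (A g c j u v) = ∑ T ∈ (univ.erase j).powerset,
      starRingEnd ℂ (c u (insert j T)) * ∏ i ∈ T, pt (fun i => !u (g i)) v i := by
  unfold A
  rw [map_sum]
  refine Finset.sum_congr rfl fun T _ => ?_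
  rw [map_mul, map_prod]
  simp_rw [conj_pt]

/-- The derivative is the sum of the analytic parts and of the conjugates of the antianalytic
parts. -/
lemma HH_dj (g : Fin n → Fin m) (c : (Fin m → Bool) → Finset (Fin n) → ℂ) (j : Fin n)
    (v : Fin n ⊕ Fin n → Bool) :
    HH g (dj g c j) v = ∑ u : Fin m → Bool,
      if u (g j) = true then starRingEnd ℂ (A g c j u v) else A g c j u v := by
  have h1 : ∀ u : Fin m → Bool, ∑ S : Finset (Fin n), dj g c j u S * ∏ i ∈ S, pt (fun i => u (g i)) v i =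
      (if u (g j) = true then 0 else A g c j u v) +
      (if u (g j) = true then 0 else starRingEnd ℂ (A g c j (fun a => !u a) v)) := by
    intro u
    rw [sum_split j]
    have h2 : ∑ T ∈ (univ.erase j).powerset,
        dj g c j u (insert j T) * ∏ i ∈ insert j T, pt (fun i => u (g i)) v i = 0 :=
      Finset.sum_eq_zero fun T _ => by simp [dj]
    rw [h2, add_zero]
    split_ifs with h
    · rw [add_zero]
      exact Finset.sum_eq_zero fun T _ => by simp [dj, h]
    · rw [conj_A]
      unfold A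
      rw [← Finset.sum_add_distrib]
      refine Finset.sum_congr rfl fun T hT => ?_
      rw [dj, if_neg (by rw [not_or]; exact ⟨notMem_of hT, h⟩)]
      simp only [Bool.not_not]
      ring
  have h3 : ∑ u : Fin m → Bool, (if u (g j) = true then 0 else
      starRingEnd ℂ (A g c j (fun a => !u a) v)) =
      ∑ u : Fin m → Bool, if u (g j) = true then starRingEnd ℂ (A g c j u v) else 0 := by
    refine Fintype.sum_equiv (Equiv.arrowCongr (Equiv.refl _) Equiv.boolNot) _ _ fun u => ?_
    have e1 : (Equiv.arrowCongr (Equiv.refl (Fin m)) Equiv.boolNot) u = fun a => !u a := by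
      funext a
      simp [Equiv.arrowCongr]
    rw [e1]
    cases hu : u (g j) <;> simp [hu]
  unfold HH
  simp_rw [h1]
  rw [Finset.sum_add_distrib, h3, ← Finset.sum_add_distrib]
  refine Finset.sum_congr rfl fun u _ => ?_
  split_ifs <;> simp

lemma F_split (g : Fin n → Fin m) (c : (Fin m → Bool) → Finset (Fin n) → ℂ) (j : Fin n)
    (v : Fin n ⊕ Fin n → Bool) :
    F g c v = (G0 g c j v).re + (e (v (Sum.inl j)) * (HH g (dj g c j) v).re -
      e (v (Sum.inr j)) * (HH g (dj g c j) v).im) := by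
  unfold F
  rw [HH_split g c j v, HH_dj, Complex.add_re, Complex.re_sum, Complex.re_sum, Complex.im_sum,
    Finset.mul_sum, Finset.mul_sum, ← Finset.sum_sub_distrib]
  congr 1
  refine Finset.sum_congr rfl fun u _ => ?_
  unfold pt
  simp only [Complex.add_re, Complex.mul_re, Complex.add_im, Complex.mul_im, Complex.ofReal_re,
    Complex.ofReal_im, Complex.I_re, Complex.I_im]
  cases u (g j) <;> simp

lemma prod_pt_congr {j : Fin n} {s : Fin n → Bool} {v w : Fin n ⊕ Fin n → Bool}
    (h : ∀ i, i ≠ j → pt s v i = pt s w i)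
    {T : Finset (Fin n)} (hT : T ∈ (univ.erase j).powerset) :
    ∏ i ∈ T, pt s v i = ∏ i ∈ T, pt s w i := by
  refine Finset.prod_congr rfl fun i hi => h i ?_
  have := Finset.mem_powerset.mp hT hi
  exact (Finset.mem_erase.mp this).1

lemma G0_congr (g : Fin n → Fin m) (c : (Fin m → Bool) → Finset (Fin n) → ℂ) {j : Fin n}
    {v w : Fin n ⊕ Fin n → Bool} (h : ∀ s i, i ≠ j → pt s v i = pt s w i) :
    G0 g c j v = G0 g c j w := by
  unfold G0
  exact Finset.sum_congr rfl fun u _ => Finset.sum_congr rfl fun T hT => by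
    rw [prod_pt_congr (h _) hT]

lemma A_congr (g : Fin n → Fin m) (c : (Fin m → Bool) → Finset (Fin n) → ℂ) {j : Fin n}
    {v w : Fin n ⊕ Fin n → Bool} (h : ∀ s i, i ≠ j → pt s v i = pt s w i) (u : Fin m → Bool) :
    A g c j u v = A g c j u w := by
  unfold A
  exact Finset.sum_congr rfl fun T hT => by rw [prod_pt_congr (h _) hT]

lemma HH_dj_congr (g : Fin n → Fin m) (c : (Fin m → Bool) → Finset (Fin n) → ℂ) {j : Fin n}
    {v w : Fin n ⊕ Fin n → Bool} (h : ∀ s i, i ≠ j → pt s v i = pt s w i) :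
    HH g (dj g c j) v = HH g (dj g c j) w := by
  rw [HH_dj, HH_dj]
  exact Finset.sum_congr rfl fun u _ => by rw [A_congr g c h u]

lemma pt_update_inl {s : Fin n → Bool} {v : Fin n ⊕ Fin n → Bool} {j i : Fin n} (h : i ≠ j)
    (b : Bool) : pt s (Function.update v (Sum.inl j) b) i = pt s v i := by
  unfold pt
  rw [Function.update_of_ne (by simpa using h), Function.update_of_ne (by simp)]

lemma pt_update_inr {s : Fin n → Bool} {v : Fin n ⊕ Fin n → Bool} {j i : Fin n} (h : i ≠ j)
    (b : Bool) : pt s (Function.update v (Sum.inr j) b) i = pt s v i := by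
  unfold pt
  rw [Function.update_of_ne (by simp), Function.update_of_ne (by simpa using h)]

lemma hd_inl (g : Fin n → Fin m) (c : (Fin m → Bool) → Finset (Fin n) → ℂ) (j : Fin n)
    (v : Fin n ⊕ Fin n → Bool) :
    hd (F g c) (Sum.inl j) v = e (v (Sum.inl j)) * (HH g (dj g c j) v).re := by
  have h0 : ∀ s i, i ≠ j → pt s (Function.update v (Sum.inl j) (!v (Sum.inl j))) i = pt s v i :=
    fun s i hi => pt_update_inl hi _
  unfold hd
  rw [F_split g c j v, F_split g c j (Function.update v (Sum.inl j) (!v (Sum.inl j))),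
    G0_congr g c h0, HH_dj_congr g c h0, Function.update_self, Function.update_of_ne (by simp), e_not]
  ring

lemma hd_inr (g : Fin n → Fin m) (c : (Fin m → Bool) → Finset (Fin n) → ℂ) (j : Fin n)
    (v : Fin n ⊕ Fin n → Bool) :
    hd (F g c) (Sum.inr j) v = -(e (v (Sum.inr j)) * (HH g (dj g c j) v).im) := by
  have h0 : ∀ s i, i ≠ j → pt s (Function.update v (Sum.inr j) (!v (Sum.inr j))) i = pt s v i :=
    fun s i hi => pt_update_inr hi _
  unfold hd
  rw [F_split g c j v, F_split g c j (Function.update v (Sum.inr j) (!v (Sum.inr j))),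
    G0_congr g c h0, HH_dj_congr g c h0, Function.update_self, Function.update_of_ne (by simp), e_not]
  ring

lemma hd_sq (g : Fin n → Fin m) (c : (Fin m → Bool) → Finset (Fin n) → ℂ) (j : Fin n)
    (v : Fin n ⊕ Fin n → Bool) :
    hd (F g c) (Sum.inl j) v ^ 2 + hd (F g c) (Sum.inr j) v ^ 2 = ‖HH g (dj g c j) v‖ ^ 2 := by
  rw [hd_inl, hd_inr, Complex.sq_norm, Complex.normSq_apply]
  have h1 := e_sq (v (Sum.inl j))
  have h2 := e_sq (v (Sum.inr j))
  linear_combination (HH g (dj g c j) v).re ^ 2 * h1 + (HH g (dj g c j) v).im ^ 2 * h2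

lemma norm_le_hd (g : Fin n → Fin m) (c : (Fin m → Bool) → Finset (Fin n) → ℂ) (j : Fin n)
    (v : Fin n ⊕ Fin n → Bool) :
    ‖HH g (dj g c j) v‖ ≤ |hd (F g c) (Sum.inl j) v| + |hd (F g c) (Sum.inr j) v| := by
  have he : ∀ b, |e b| = 1 := fun b => by cases b <;> simp
  rw [hd_inl, hd_inr, abs_neg, abs_mul, abs_mul, he, he, one_mul, one_mul]
  exact Complex.norm_le_abs_re_add_abs_im _

/-- The derivative is bounded by one. -/
lemma norm_le_one {g : Fin n → Fin m} {c : (Fin m → Bool) → Finset (Fin n) → ℂ}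
    (hf : ∀ v, |F g c v| ≤ 1) (j : Fin n) (v : Fin n ⊕ Fin n → Bool) :
    ‖HH g (dj g c j) v‖ ≤ 1 := by
  -- the value at the point with the coordinates `a`, `b` at `j`
  have key : ∀ a b : Bool, |(G0 g c j v).re + (e a * (HH g (dj g c j) v).re -
      e b * (HH g (dj g c j) v).im)| ≤ 1 := by
    intro a b
    set w : Fin n ⊕ Fin n → Bool :=
      Function.update (Function.update v (Sum.inl j) a) (Sum.inr j) b with hw
    have h0 : ∀ s i, i ≠ j → pt s w i = pt s v i := fun s i hi => by
      rw [hw, pt_update_inr hi, pt_update_inl hi]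
    have h1 := hf w
    rw [F_split g c j w, G0_congr g c h0, HH_dj_congr g c h0] at h1
    have h2 : w (Sum.inl j) = a := by
      rw [hw, Function.update_of_ne (by simp), Function.update_self]
    have h3 : w (Sum.inr j) = b := by
      rw [hw, Function.update_self]
    rw [h2, h3] at h1
    exact h1
  have k1 := abs_le.mp (key false false)
  have k2 := abs_le.mp (key true true)
  have k3 := abs_le.mp (key true false)
  have k4 := abs_le.mp (key false true)
  simp only [e_false, e_true] at k1 k2 k3 k4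
  have h1 : |(HH g (dj g c j) v).re - (HH g (dj g c j) v).im| ≤ 1 := by
    rw [abs_le]; constructor <;> linarith [k1.1, k1.2, k2.1, k2.2]
  have h2 : |(HH g (dj g c j) v).re + (HH g (dj g c j) v).im| ≤ 1 := by
    rw [abs_le]; constructor <;> linarith [k3.1, k3.2, k4.1, k4.2]
  have h3 : ‖HH g (dj g c j) v‖ ^ 2 ≤ 1 := by
    rw [Complex.sq_norm, Complex.normSq_apply]
    have h4 := (sq_le_one_iff_abs_le_one _).mpr h1
    have h5 := (sq_le_one_iff_abs_le_one _).mpr h2
    nlinarith
  exact (sq_le_one_iff₀ (norm_nonneg _)).mp h3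

end Pool.Agent.Lib_helper4.PluriG
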